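import Pool.Agent.H5.XP.HYMa

/-!
# Exponential time in EQP: row HYM (masses of chains of distributions)
-/

set_option autoImplicit false

namespace Pool.Agent.H5.XP

open Finset Pool.Agent.H66.XP

theorem pf_HYM : T_HYM := by
  intro I _ _ T _ ord g hg0 hg1 hf
  by_cases h : Nonempty (∀ i, T i)
  · have hn : ∀ i, Nonempty (T i) := fun i => ⟨h.some i⟩
    obtain ⟨h1, h2, h3⟩ := hym I T ord g hg0 hg1 hf
    exact ⟨h1, fun _ => h2, h3⟩
  · rw [not_nonempty_iff] at h
    refine ⟨?_, fun hh => absurd hh (not_nonempty_iff.2 h), fun n B => (h.false B).elim⟩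
    rw [Finset.univ_eq_empty, Finset.sum_empty]
    exact zero_le_one

end Pool.Agent.H5.XP
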