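import Pool.Agent.H66.XP.TH

/-!
# Exponential time in EQP: row HYM (masses of chains of distributions), nonempty types
-/

set_option autoImplicit false

namespace Pool.Agent.H5.XP

open Finset Pool.Agent.H66.XP

section hy

variable {I : Type} [Fintype I] [DecidableEq I] {T : I → Type} [∀ j, Fintype (T j)]

open Classical in
/-- the points which agree with `Q` outside `R` -/
private noncomputable def hyX (Q : ∀ j, T j) (R : Finset I) : Finset (∀ j, T j) :=
  Finset.univ.filter fun P => ∀ j, j ∉ R → P j = Q j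

private theorem hyX_mem {Q : ∀ j, T j} {R : Finset I} {P : ∀ j, T j} :
    P ∈ hyX Q R ↔ ∀ j, j ∉ R → P j = Q j := by
  simp [hyX]

private theorem hy_re (Q : ∀ j, T j) (R : Finset I) (a : I) (ha : a ∉ R)
    (G : (∀ j, T j) → ℝ) :
    ∑ P ∈ hyX Q (insert a R), G P = ∑ P ∈ hyX Q R, ∑ p : T a, G (Function.update P a p) := by
  rw [← Finset.sum_product' (hyX Q R) Finset.univ (fun P p => G (Function.update P a p))]
  refine Finset.sum_nbij' (fun P => (Function.update P a (Q a), P a))
    (fun x => Function.update x.1 a x.2) ?_ ?_ ?_ ?_ ?_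
  · intro P hP
    rw [hyX_mem] at hP
    refine Finset.mem_product.2 ⟨hyX_mem.2 fun j hj => ?_, Finset.mem_univ _⟩
    by_cases hja : j = a
    · subst hja
      show Function.update P j (Q j) j = Q j
      rw [Function.update_self]
    · show Function.update P a (Q a) j = Q j
      rw [Function.update_of_ne hja]
      exact hP j fun h => (Finset.mem_insert.1 h).elim hja hj
  · rintro ⟨P, p⟩ hP
    have h1 := hyX_mem.1 (Finset.mem_product.1 hP).1
    refine hyX_mem.2 fun j hj => ?_
    have hja : j ≠ a := fun h => hj (h ▸ Finset.mem_insert_self a R)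
    show Function.update P a p j = Q j
    rw [Function.update_of_ne hja]
    exact h1 j fun h => hj (Finset.mem_insert_of_mem h)
  · intro P _
    show Function.update (Function.update P a (Q a)) a (P a) = P
    rw [Function.update_idem, Function.update_eq_self]
  · rintro ⟨P, p⟩ hP
    have h1 := hyX_mem.1 (Finset.mem_product.1 hP).1
    show (Function.update (Function.update P a p) a (Q a), Function.update P a p a) = (P, p)
    rw [Function.update_idem, Function.update_self]
    refine Prod.ext ?_ rfl
    show Function.update P a (Q a) = P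
    rw [← h1 a ha, Function.update_eq_self]
  · intro P _
    show G P = G (Function.update (Function.update P a (Q a)) a (P a))
    rw [Function.update_idem, Function.update_eq_self]

/-- the partial sum -/
private noncomputable def hyS (Q : ∀ j, T j) (g : (∀ j, T j) → ∀ j, T j → ℝ) (R : Finset I)
    (G : (∀ j, T j) → ℝ) : ℝ :=
  ∑ P ∈ hyX Q R, (∏ j ∈ R, g P j (P j)) * G P

private theorem hy_step (Q : ∀ j, T j) (g : (∀ j, T j) → ∀ j, T j → ℝ) (R : Finset I) (a : I)
    (ha : a ∉ R)
    (hf : ∀ j ∈ insert a R, ∀ (P : ∀ j, T j) (p : T a), g (Function.update P a p) j = g P j)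
    (G : (∀ j, T j) → ℝ) :
    hyS Q g (insert a R) G = hyS Q g R fun P => ∑ p, g P a p * G (Function.update P a p) := by
  unfold hyS
  rw [hy_re Q R a ha]
  refine Finset.sum_congr rfl fun P _ => ?_
  rw [Finset.mul_sum]
  refine Finset.sum_congr rfl fun p _ => ?_
  have h1 : ∏ j ∈ R, g (Function.update P a p) j (Function.update P a p j) =
      ∏ j ∈ R, g P j (P j) :=
    Finset.prod_congr rfl fun j hj => by
      have hne : j ≠ a := fun h => ha (h ▸ hj)
      rw [hf j (Finset.mem_insert_of_mem hj), Function.update_of_ne hne]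
  rw [Finset.prod_insert ha, hf a (Finset.mem_insert_self a R), Function.update_self, h1]
  ring

private theorem hy_mono (Q : ∀ j, T j) (g : (∀ j, T j) → ∀ j, T j → ℝ)
    (hg0 : ∀ P i c, 0 ≤ g P i c) (R : Finset I) (G G' : (∀ j, T j) → ℝ) (h : ∀ P, G P ≤ G' P) :
    hyS Q g R G ≤ hyS Q g R G' :=
  Finset.sum_le_sum fun P _ => mul_le_mul_of_nonneg_left (h P)
    (Finset.prod_nonneg fun _ _ => hg0 _ _ _)

private theorem hy_empty (Q : ∀ j, T j) (g : (∀ j, T j) → ∀ j, T j → ℝ) (G : (∀ j, T j) → ℝ) :
    hyS Q g ∅ G = G Q := by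
  have h1 : hyX Q (∅ : Finset I) = {Q} := by
    ext P
    rw [hyX_mem, Finset.mem_singleton]
    exact ⟨fun h => funext fun j => h j (Finset.notMem_empty j), fun h j _ => h ▸ rfl⟩
  unfold hyS
  rw [h1, Finset.sum_singleton, Finset.prod_empty, one_mul]

private theorem hy_mass (Q : ∀ j, T j) (g : (∀ j, T j) → ∀ j, T j → ℝ) (ord : I → ℕ)
    (hg0 : ∀ P i c, 0 ≤ g P i c) (hg1 : ∀ P i, ∑ c, g P i c ≤ 1)
    (hf : ∀ P i j p, ord i ≤ ord j → g (Function.update P j p) i = g P i)
    (R : Finset I) : hyS Q g R (fun _ => 1) ≤ 1 := by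
  induction R using Finset.induction_on_max_value ord with
  | empty => rw [hy_empty]
  | insert a s ha hmax ih =>
    rw [hy_step Q g s a ha fun j hj P p => hf P j a p (by
      rcases Finset.mem_insert.1 hj with rfl | hj
      · exact le_rfl
      · exact hmax j hj)]
    refine (hy_mono Q g hg0 s _ (fun _ => 1) fun P => ?_).trans ih
    simp only [mul_one]
    exact hg1 _ _

private theorem hy_low (Q : ∀ j, T j) (g : (∀ j, T j) → ∀ j, T j → ℝ) (ord : I → ℕ)
    (hg0 : ∀ P i c, 0 ≤ g P i c) (hg1 : ∀ P i, ∑ c, g P i c ≤ 1)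
    (hf : ∀ P i j p, ord i ≤ ord j → g (Function.update P j p) i = g P i)
    (ε : I → ℝ) (hε : ∀ i, 0 ≤ ε i ∧ ε i ≤ 1) (hl : ∀ P i, 1 - ε i ≤ ∑ c, g P i c)
    (R : Finset I) : 1 - ∑ i ∈ R, ε i ≤ hyS Q g R (fun _ => 1) := by
  induction R using Finset.induction_on_max_value ord with
  | empty => rw [hy_empty, Finset.sum_empty, sub_zero]
  | insert a s ha hmax ih =>
    rw [hy_step Q g s a ha fun j hj P p => hf P j a p (by
      rcases Finset.mem_insert.1 hj with rfl | hj
      · exact le_rfl
      · exact hmax j hj)]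
    have h1 : hyS Q g s (fun _ => 1 - ε a) ≤
        hyS Q g s fun P => ∑ p, g P a p * (fun _ => (1 : ℝ)) (Function.update P a p) :=
      hy_mono Q g hg0 s _ _ fun P => by
        simp only [mul_one]
        exact hl P a
    have h2 : hyS Q g s (fun _ => 1 - ε a) = (1 - ε a) * hyS Q g s (fun _ => 1) := by
      unfold hyS
      rw [Finset.mul_sum]
      exact Finset.sum_congr rfl fun P _ => by ring
    have h3 := hy_mass Q g ord hg0 hg1 hf s
    have h4 := (hε a).1
    rw [Finset.sum_insert ha]
    refine le_trans ?_ h1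
    rw [h2]
    nlinarith

private theorem hy_big (ord : I → ℕ) (n : ℕ) (B : ∀ j, T j) (g g' : (∀ j, T j) → ∀ j, T j → ℝ)
    (hg0 : ∀ P i c, 0 ≤ g P i c) (hg1 : ∀ P i, ∑ c, g P i c ≤ 1)
    (hf : ∀ P i j p, ord i ≤ ord j → g (Function.update P j p) i = g P i)
    (hf' : ∀ P i j p, ord i ≤ ord j → g' (Function.update P j p) i = g' P i)
    (he : ∀ P i, ord i ≤ n → g' P i = g P i)
    (hb : ∀ P i (F : T i → ℝ), n < ord i → ∑ c, g' P i c * F c = F (B i))
    (G : (∀ j, T j) → ℝ) (hG0 : ∀ P, 0 ≤ G P)
    (hG : ∀ P j p, n < ord j → G (Function.update P j p) = G P)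
    (R : Finset I) : hyS B g R G ≤ hyS B g' R G := by
  induction R using Finset.induction_on_max_value ord with
  | empty => rw [hy_empty, hy_empty]
  | insert a s ha hmax ih =>
    by_cases han : ord a ≤ n
    · have hall : ∀ j ∈ insert a s, ord j ≤ n := by
        intro j hj
        rcases Finset.mem_insert.1 hj with rfl | hj
        · exact han
        · exact (hmax j hj).trans han
      refine le_of_eq ?_
      unfold hyS
      refine Finset.sum_congr rfl fun P _ => ?_
      congr 1
      exact Finset.prod_congr rfl fun j hj => by rw [he P j (hall j hj)]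
    · have hna : n < ord a := not_le.1 han
      have hle : ∀ j ∈ insert a s, ord j ≤ ord a := by
        intro j hj
        rcases Finset.mem_insert.1 hj with rfl | hj
        · exact le_rfl
        · exact hmax j hj
      rw [hy_step B g s a ha fun j hj P p => hf P j a p (hle j hj),
        hy_step B g' s a ha fun j hj P p => hf' P j a p (hle j hj)]
      have h1 : (fun P : ∀ j, T j => ∑ p, g' P a p * G (Function.update P a p)) = G := by
        funext P
        rw [hb P a (fun p => G (Function.update P a p)) hna]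
        exact hG P a _ hna
      rw [h1]
      refine le_trans (hy_mono B g hg0 s _ _ fun P => ?_) ih
      have h2 : ∑ p, g P a p * G (Function.update P a p) = (∑ p, g P a p) * G P := by
        rw [Finset.sum_mul]
        exact Finset.sum_congr rfl fun p _ => by rw [hG P a p hna]
      rw [h2]
      exact mul_le_of_le_one_left (hG0 P) (hg1 P a)

end hy

open Classical in
/-- HYM, for nonempty types -/
theorem hym (I : Type) [Fintype I] [DecidableEq I] (T : I → Type) [∀ i, Fintype (T i)]
    [∀ i, Nonempty (T i)] (ord : I → ℕ) (g : (∀ i, T i) → ∀ i, T i → ℝ)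
    (hg0 : ∀ P i c, 0 ≤ g P i c) (hg1 : ∀ P i, ∑ c, g P i c ≤ 1)
    (hf : ∀ P i j p, ord i ≤ ord j → g (Function.update P j p) i = g P i) :
    ∑ P : (∀ i, T i), ∏ i, g P i (P i) ≤ 1 ∧
    (∀ ε : I → ℝ, (∀ i, 0 ≤ ε i ∧ ε i ≤ 1) → (∀ P i, 1 - ε i ≤ ∑ c, g P i c) →
      1 - ∑ i, ε i ≤ ∑ P : (∀ i, T i), ∏ i, g P i (P i)) ∧
    ∀ (n : ℕ) (B : ∀ i, T i) (φ : (∀ i, T i) → ℝ), (∀ P, 0 ≤ φ P) →
      (∀ P j p, n < ord j → φ (Function.update P j p) = φ P) →
      ∑ P : (∀ i, T i), (∏ i, g P i (P i)) * φ P ≤
        ∑ P : (∀ i, T i), (∏ i, if ord i ≤ n then g P i (P i) else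
          if P i = B i then 1 else 0) * φ P := by
  have hX : ∀ Q : ∀ j, T j, hyX Q (Finset.univ : Finset I) = Finset.univ := by
    intro Q
    ext P
    rw [hyX_mem]
    exact ⟨fun _ => Finset.mem_univ _, fun _ j hj => absurd (Finset.mem_univ j) hj⟩
  have Q : ∀ j, T j := fun j => Classical.arbitrary _
  have e1 : hyS Q g Finset.univ (fun _ => 1) = ∑ P : (∀ i, T i), ∏ i, g P i (P i) := by
    unfold hyS
    rw [hX]
    simp only [mul_one]
  refine ⟨?_, ?_, ?_⟩
  · rw [← e1]
    exact hy_mass Q g ord hg0 hg1 hf _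
  · intro ε hε hl
    rw [← e1]
    exact hy_low Q g ord hg0 hg1 hf ε hε hl _
  · intro n B φ hφ hφ'
    have h := hy_big ord n B g
      (fun P i c => if ord i ≤ n then g P i c else if c = B i then 1 else 0) hg0 hg1 hf
      (by
        intro P i j p hij
        funext c
        rw [hf P i j p hij])
      (by
        intro P i hi
        funext c
        rw [if_pos hi])
      (by
        intro P i F hi
        have h1 : ∀ c : T i, (if ord i ≤ n then g P i c else if c = B i then (1 : ℝ) else 0) *
            F c = if c = B i then F c else 0 := by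
          intro c
          rw [if_neg (not_le.2 hi), ite_mul, one_mul, zero_mul]
        rw [Finset.sum_congr rfl fun c _ => h1 c, Finset.sum_ite_eq', if_pos (Finset.mem_univ _)])
      φ hφ hφ' Finset.univ
    unfold hyS at h
    rw [hX] at h
    exact h

end Pool.Agent.H5.XP
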